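import Pool.Agent.BES.Stmts

set_option autoImplicit false

/-! Squad BES (MP_be01ff_an), row DNS: completeness of the symmetric modes of the sector. -/

namespace Pool.Agent.BES.H69

open Set Filter Topology MeasureTheory
open scoped InnerProductSpace ENNReal
open Pool.Agent.BE01 Pool.Agent.BES

noncomputable section

/-! ### The modes -/

theorem mj_eq (m j : ℕ) : mj m j = mj m 0 + (2 * mj m 0) * j := by
  unfold mj
  push_cast
  ring

theorem mj_pos (m j : ℕ) : 0 < mj m j := by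
  unfold mj
  positivity

/-- the powers of the norm -/
theorem Hf_eq (m j : ℕ) (x : En 2) (hx : 0 < ‖x‖) :
    Hf (mj m j) x = ‖x‖ ^ (mj m 0) * ((‖x‖ ^ (mj m 0)) ^ 2) ^ j *
      Real.cos ((2 * j + 1) * (mj m 0 * Real.arccos (x 0 / ‖x‖))) := by
  unfold Hf
  have e1 : ‖x‖ ^ (mj m j) = ‖x‖ ^ (mj m 0) * ((‖x‖ ^ (mj m 0)) ^ 2) ^ j := by
    rw [mj_eq, Real.rpow_add hx, Real.rpow_mul hx.le, Real.rpow_natCast]
    congr 2
    rw [mul_comm 2 (mj m 0), Real.rpow_mul hx.le]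
    exact_mod_cast Real.rpow_natCast (‖x‖ ^ (mj m 0)) 2
  have e2 : mj m j * Real.arccos (x 0 / ‖x‖) =
      (2 * j + 1) * (mj m 0 * Real.arccos (x 0 / ‖x‖)) := by
    unfold mj
    push_cast
    ring
  rw [e1, e2]

theorem S_eq (m : ℕ) (x : En 2) (hx : 0 < ‖x‖) :
    (‖x‖ ^ 2) ^ (mj m 0) = (‖x‖ ^ (mj m 0)) ^ 2 := by
  rw [← Real.rpow_natCast ‖x‖ 2, ← Real.rpow_mul hx.le, mul_comm, Real.rpow_mul hx.le,
    Real.rpow_natCast]

theorem rec0 (m : ℕ) (x : En 2) (hx : 0 < ‖x‖) :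
    Hf (mj m 0) x ^ 2 * Hf (mj m 0) x =
      (Hf (mj m 1) x + 3 * (‖x‖ ^ 2) ^ (mj m 0) * Hf (mj m 0) x) / 4 := by
  rw [S_eq m x hx, Hf_eq m 0 x hx, Hf_eq m 1 x hx]
  generalize ‖x‖ ^ (mj m 0) = s
  generalize mj m 0 * Real.arccos (x 0 / ‖x‖) = φ
  have e1 : (2 * ((1 : ℕ) : ℝ) + 1) * φ = 3 * φ := by push_cast; ring
  have e0 : (2 * ((0 : ℕ) : ℝ) + 1) * φ = φ := by push_cast; ring
  rw [e1, e0, Real.cos_three_mul]
  ring

theorem recS (m j : ℕ) (x : En 2) (hx : 0 < ‖x‖) :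
    Hf (mj m 0) x ^ 2 * Hf (mj m (j + 1)) x =
      (Hf (mj m (j + 2)) x + 2 * (‖x‖ ^ 2) ^ (mj m 0) * Hf (mj m (j + 1)) x +
        ((‖x‖ ^ 2) ^ (mj m 0)) ^ 2 * Hf (mj m j) x) / 4 := by
  rw [S_eq m x hx, Hf_eq m 0 x hx, Hf_eq m (j + 1) x hx, Hf_eq m (j + 2) x hx, Hf_eq m j x hx]
  generalize ‖x‖ ^ (mj m 0) = s
  generalize mj m 0 * Real.arccos (x 0 / ‖x‖) = φ
  have e0 : (2 * ((0 : ℕ) : ℝ) + 1) * φ = φ := by push_cast; ring
  have e2 : (2 * ((j + 2 : ℕ) : ℝ) + 1) * φ = (2 * ((j + 1 : ℕ) : ℝ) + 1) * φ + 2 * φ := by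
    push_cast; ring
  have e3 : (2 * (j : ℝ) + 1) * φ = (2 * ((j + 1 : ℕ) : ℝ) + 1) * φ - 2 * φ := by
    push_cast; ring
  rw [e0, e2, e3, Real.cos_add, Real.cos_sub, Real.cos_two_mul]
  ring

/-! ### The reflection -/

theorem sg_sg (x : En 2) : sg (sg x) = x := by
  unfold sg
  ext i
  fin_cases i <;> simp

/-- the reflection as a linear isometry -/
def sgL (h : ∀ x, ‖sg x‖ = ‖x‖) : En 2 ≃ₗᵢ[ℝ] En 2 where
  toFun := sg
  invFun := sg
  map_add' x y := by
    unfold sg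
    ext i
    fin_cases i
    · simp
    · simp
      ring
  map_smul' c x := by
    unfold sg
    ext i
    fin_cases i <;> simp
  left_inv := sg_sg
  right_inv := sg_sg
  norm_map' := h

theorem sg_cont (h : ∀ x, ‖sg x‖ = ‖x‖) : Continuous sg := (sgL h).continuous

theorem sg_mp (h : ∀ x, ‖sg x‖ = ‖x‖) {Ω : Set (En 2)} (hΩ : IsOpen Ω)
    (hs : ∀ x, sg x ∈ Ω ↔ x ∈ Ω) (F : En 2 → ℝ) :
    ∫ x, F (sg x) ∂(mu Ω) = ∫ x, F x ∂(mu Ω) := by
  have h1 : MeasurePreserving (sgL h) (volume : Measure (En 2)) volume :=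
    (sgL h).measurePreserving
  have h2 := h1.restrict_preimage hΩ.measurableSet
  have h3 : (sgL h) ⁻¹' Ω = Ω := by
    ext x
    exact hs x
  rw [h3] at h2
  exact h2.integral_comp (sgL h).toHomeomorph.measurableEmbedding F

/-! ### Functionals -/

section main

variable {m : ℕ} {R : ℝ} (u : Lp ℝ 2 (mu (Sec m R)))

theorem mem_ball_of_mem {x : En 2} (hx : x ∈ Sec m R) : x ∈ Metric.closedBall (0 : En 2) R := by
  rw [mem_closedBall_zero_iff]
  exact hx.1.le

theorem int_mul (hD : Dom (Sec m R)) {F : En 2 → ℝ} (hF : Continuous F) :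
    Integrable (fun x => u x * F x) (mu (Sec m R)) := by
  haveI : IsFiniteMeasure (mu (Sec m R)) := by
    refine ⟨?_⟩
    unfold mu
    rw [Measure.restrict_apply_univ]
    exact hD.2.1.measure_lt_top
  have hu : Integrable u (mu (Sec m R)) := (Lp.memLp u).integrable (by norm_num)
  obtain ⟨C, hC⟩ := (isCompact_closedBall (0 : En 2) R).exists_bound_of_continuousOn
    hF.continuousOn
  exact hu.mul_bdd hF.aestronglyMeasurable (c := C)
    (ae_restrict_of_forall_mem hD.1.measurableSet fun x hx => hC x (mem_ball_of_mem hx))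

theorem close (hD : Dom (Sec m R)) {F : En 2 → ℝ} (hF : Continuous F)
    (h : ∀ ε : ℝ, 0 < ε → ∃ G : En 2 → ℝ, Continuous G ∧
      ∫ x, u x * G x ∂(mu (Sec m R)) = 0 ∧ ∀ x ∈ Sec m R, |F x - G x| ≤ ε) :
    ∫ x, u x * F x ∂(mu (Sec m R)) = 0 := by
  haveI : IsFiniteMeasure (mu (Sec m R)) := by
    refine ⟨?_⟩
    unfold mu
    rw [Measure.restrict_apply_univ]
    exact hD.2.1.measure_lt_top
  have hu : Integrable u (mu (Sec m R)) := (Lp.memLp u).integrable (by norm_num)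
  set B : ℝ := ∫ x, ‖u x‖ ∂(mu (Sec m R)) with hB
  have hB0 : 0 ≤ B := integral_nonneg fun x => norm_nonneg _
  have key : ∀ ε : ℝ, 0 < ε → |∫ x, u x * F x ∂(mu (Sec m R))| ≤ ε * B := by
    intro ε hε
    obtain ⟨G, hG, hG0, hFG⟩ := h ε hε
    have e1 : ∫ x, u x * F x ∂(mu (Sec m R)) = ∫ x, (u x * F x - u x * G x) ∂(mu (Sec m R)) := by
      rw [integral_sub (int_mul u hD hF) (int_mul u hD hG), hG0, sub_zero]
    rw [e1, ← Real.norm_eq_abs, hB, ← integral_const_mul]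
    refine norm_integral_le_of_norm_le (hu.norm.const_mul ε) ?_
    refine ae_restrict_of_forall_mem hD.1.measurableSet fun x hx => ?_
    rw [← mul_sub, norm_mul, mul_comm]
    exact mul_le_mul_of_nonneg_right (hFG x hx) (norm_nonneg _)
  by_contra hne
  have hpos : 0 < |∫ x, u x * F x ∂(mu (Sec m R))| := abs_pos.2 hne
  have h1 := key (|∫ x, u x * F x ∂(mu (Sec m R))| / (B + 1)) (by positivity)
  rw [div_mul_eq_mul_div, le_div_iff₀ (by positivity)] at h1
  nlinarith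

/-- the modes with a continuous function of the norm -/
theorem claim0 (hct : HctStmt) (hD : Dom (Sec m R))
    (h0 : ∀ b j : ℕ, ∫ x, u x * ((‖x‖ ^ 2) ^ b * Hf (mj m j) x) ∂(mu (Sec m R)) = 0)
    (j : ℕ) (f : ℝ → ℝ) (hf : Continuous f) :
    ∫ x, u x * (f (‖x‖ ^ 2) * Hf (mj m j) x) ∂(mu (Sec m R)) = 0 := by
  have hH : Continuous (Hf (mj m j)) := (hct.1 _ (mj_pos m j)).1
  have hρ : Continuous fun x : En 2 => ‖x‖ ^ 2 := continuous_norm.pow 2
  have hpc : ∀ p : Polynomial ℝ,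
      Continuous fun x : En 2 => p.eval (‖x‖ ^ 2) * Hf (mj m j) x := fun p =>
    (p.continuous.comp hρ).mul hH
  have hpoly : ∀ p : Polynomial ℝ,
      ∫ x, u x * (p.eval (‖x‖ ^ 2) * Hf (mj m j) x) ∂(mu (Sec m R)) = 0 := by
    intro p
    induction p using Polynomial.induction_on' with
    | add p q hp hq =>
      have e : (fun x : En 2 => u x * ((p + q).eval (‖x‖ ^ 2) * Hf (mj m j) x)) =
          fun x => u x * (p.eval (‖x‖ ^ 2) * Hf (mj m j) x) +
            u x * (q.eval (‖x‖ ^ 2) * Hf (mj m j) x) := by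
        funext x
        rw [Polynomial.eval_add]
        ring
      rw [e, integral_add (int_mul u hD (hpc p)) (int_mul u hD (hpc q)), hp, hq, add_zero]
    | monomial n a =>
      have e : (fun x : En 2 => u x * ((Polynomial.monomial n a).eval (‖x‖ ^ 2) *
          Hf (mj m j) x)) = fun x => a * (u x * ((‖x‖ ^ 2) ^ n * Hf (mj m j) x)) := by
        funext x
        rw [Polynomial.eval_monomial]
        ring
      rw [e, integral_const_mul, h0, mul_zero]
  apply close u hD ((hf.comp hρ).mul hH)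
  intro ε hε
  obtain ⟨C, hC⟩ := (isCompact_closedBall (0 : En 2) R).exists_bound_of_continuousOn
    hH.continuousOn
  have hC1 : 0 < |C| + 1 := by positivity
  obtain ⟨p, hp⟩ := exists_polynomial_near_of_continuousOn 0 (R ^ 2) f hf.continuousOn
    (ε / (|C| + 1)) (by positivity)
  refine ⟨_, hpc p, hpoly p, fun x hx => ?_⟩
  have hx1 := mem_ball_of_mem hx
  have hx2 : ‖x‖ ^ 2 ∈ Set.Icc 0 (R ^ 2) := by
    rw [mem_closedBall_zero_iff] at hx1
    exact ⟨by positivity, pow_le_pow_left₀ (norm_nonneg _) hx1 2⟩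
  have e : f (‖x‖ ^ 2) * Hf (mj m j) x - p.eval (‖x‖ ^ 2) * Hf (mj m j) x =
      -((p.eval (‖x‖ ^ 2) - f (‖x‖ ^ 2)) * Hf (mj m j) x) := by ring
  show |f (‖x‖ ^ 2) * Hf (mj m j) x - p.eval (‖x‖ ^ 2) * Hf (mj m j) x| ≤ ε
  rw [e, abs_neg, abs_mul]
  have h1 := (hp _ hx2).le
  have h2 : |Hf (mj m j) x| ≤ |C| + 1 := by
    have := hC x hx1
    rw [Real.norm_eq_abs] at this
    exact this.trans ((le_abs_self C).trans (by linarith))
  calc |p.eval (‖x‖ ^ 2) - f (‖x‖ ^ 2)| * |Hf (mj m j) x| ≤ ε / (|C| + 1) * (|C| + 1) :=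
        mul_le_mul h1 h2 (abs_nonneg _) (by positivity)
    _ = ε := by field_simp

theorem zero_comb {μ : Measure (En 2)} {F G : En 2 → ℝ} (a b : ℝ) (hF : Integrable F μ)
    (hG : Integrable G μ) (h1 : ∫ x, F x ∂μ = 0) (h2 : ∫ x, G x ∂μ = 0) :
    ∫ x, (a * F x + b * G x) ∂μ = 0 := by
  rw [integral_add (hF.const_mul a) (hG.const_mul b), integral_const_mul, integral_const_mul,
    h1, h2, mul_zero, mul_zero, add_zero]

theorem zero_comb3 {μ : Measure (En 2)} {F G K : En 2 → ℝ} (a b c : ℝ) (hF : Integrable F μ)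
    (hG : Integrable G μ) (hK : Integrable K μ) (h1 : ∫ x, F x ∂μ = 0) (h2 : ∫ x, G x ∂μ = 0)
    (h3 : ∫ x, K x ∂μ = 0) :
    ∫ x, (a * F x + b * G x + c * K x) ∂μ = 0 := by
  have e : (fun x => a * F x + b * G x + c * K x) =
      fun x => 1 * (a * F x + b * G x) + c * K x := by
    funext x
    ring
  rw [e]
  exact zero_comb 1 c ((hF.const_mul a).add (hG.const_mul b)) hK
    (zero_comb a b hF hG h1 h2) h3

/-- powers of the square of the first mode -/
theorem claimI (hct : HctStmt) (hpo : HpoStmt) (hD : Dom (Sec m R))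
    (h0 : ∀ b j : ℕ, ∫ x, u x * ((‖x‖ ^ 2) ^ b * Hf (mj m j) x) ∂(mu (Sec m R)) = 0)
    (i : ℕ) : ∀ (j : ℕ) (f : ℝ → ℝ), Continuous f →
      ∫ x, u x * (f (‖x‖ ^ 2) * (Hf (mj m 0) x ^ 2) ^ i * Hf (mj m j) x) ∂(mu (Sec m R)) = 0 := by
  have hH : ∀ j, Continuous (Hf (mj m j)) := fun j => (hct.1 _ (mj_pos m j)).1
  have hρ : Continuous fun x : En 2 => ‖x‖ ^ 2 := continuous_norm.pow 2
  have hc : ∀ (i j : ℕ) (f : ℝ → ℝ), Continuous f →
      Continuous fun x : En 2 => f (‖x‖ ^ 2) * (Hf (mj m 0) x ^ 2) ^ i * Hf (mj m j) x :=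
    fun i j f hf => ((hf.comp hρ).mul (((hH 0).pow 2).pow i)).mul (hH j)
  have hσ : Continuous fun t : ℝ => t ^ (mj m 0) :=
    Real.continuous_rpow_const (mj_pos m 0).le
  have hpos : ∀ x ∈ Sec m R, 0 < ‖x‖ := by
    intro x hx
    have h1 := ((hpo m).1 R x hx).1
    rw [norm_pos_iff]
    rintro rfl
    have h2 : Hf (mj m 0) (0 : En 2) = 0 := by
      unfold Hf
      rw [norm_zero, Real.zero_rpow (mj_pos m 0).ne', zero_mul]
    rw [h2] at h1
    exact lt_irrefl _ h1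
  induction i with
  | zero =>
    intro j f hf
    have h := claim0 u hct hD h0 j f hf
    have e : (fun x : En 2 => u x * (f (‖x‖ ^ 2) * (Hf (mj m 0) x ^ 2) ^ 0 * Hf (mj m j) x)) =
        fun x => u x * (f (‖x‖ ^ 2) * Hf (mj m j) x) := by
      funext x
      rw [pow_zero, mul_one]
    rw [e]
    exact h
  | succ i ih =>
    intro j f hf
    rcases j with _ | j
    · have a1 := ih 1 f hf
      have a2 := ih 0 (fun t => f t * t ^ (mj m 0)) (hf.mul hσ)
      have e : ∫ x, u x * (f (‖x‖ ^ 2) * (Hf (mj m 0) x ^ 2) ^ (i + 1) * Hf (mj m 0) x)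
          ∂(mu (Sec m R)) =
          ∫ x, (1 / 4 * (u x * (f (‖x‖ ^ 2) * (Hf (mj m 0) x ^ 2) ^ i * Hf (mj m 1) x)) +
            3 / 4 * (u x * ((f (‖x‖ ^ 2) * (‖x‖ ^ 2) ^ (mj m 0)) *
              (Hf (mj m 0) x ^ 2) ^ i * Hf (mj m 0) x))) ∂(mu (Sec m R)) := by
        refine setIntegral_congr_fun hD.1.measurableSet fun x hx => ?_
        have h1 := rec0 m x (hpos x hx)
        show u x * (f (‖x‖ ^ 2) * (Hf (mj m 0) x ^ 2) ^ (i + 1) * Hf (mj m 0) x) =
          1 / 4 * (u x * (f (‖x‖ ^ 2) * (Hf (mj m 0) x ^ 2) ^ i * Hf (mj m 1) x)) +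
            3 / 4 * (u x * ((f (‖x‖ ^ 2) * (‖x‖ ^ 2) ^ (mj m 0)) *
              (Hf (mj m 0) x ^ 2) ^ i * Hf (mj m 0) x))
        rw [pow_succ (Hf (mj m 0) x ^ 2) i]
        linear_combination (u x * f (‖x‖ ^ 2) * (Hf (mj m 0) x ^ 2) ^ i) * h1
      rw [e]
      exact zero_comb _ _ (int_mul u hD (hc i 1 f hf))
        (int_mul u hD (hc i 0 (fun t => f t * t ^ (mj m 0)) (hf.mul hσ))) a1 a2
    · have a1 := ih (j + 2) f hf
      have a2 := ih (j + 1) (fun t => f t * t ^ (mj m 0)) (hf.mul hσ)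
      have a3 := ih j (fun t => f t * (t ^ (mj m 0)) ^ 2) (hf.mul (hσ.pow 2))
      have e : ∫ x, u x * (f (‖x‖ ^ 2) * (Hf (mj m 0) x ^ 2) ^ (i + 1) * Hf (mj m (j + 1)) x)
          ∂(mu (Sec m R)) =
          ∫ x, (1 / 4 * (u x * (f (‖x‖ ^ 2) * (Hf (mj m 0) x ^ 2) ^ i * Hf (mj m (j + 2)) x)) +
            1 / 2 * (u x * ((f (‖x‖ ^ 2) * (‖x‖ ^ 2) ^ (mj m 0)) *
              (Hf (mj m 0) x ^ 2) ^ i * Hf (mj m (j + 1)) x)) +
            1 / 4 * (u x * ((f (‖x‖ ^ 2) * ((‖x‖ ^ 2) ^ (mj m 0)) ^ 2) *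
              (Hf (mj m 0) x ^ 2) ^ i * Hf (mj m j) x))) ∂(mu (Sec m R)) := by
        refine setIntegral_congr_fun hD.1.measurableSet fun x hx => ?_
        have h1 := recS m j x (hpos x hx)
        show u x * (f (‖x‖ ^ 2) * (Hf (mj m 0) x ^ 2) ^ (i + 1) * Hf (mj m (j + 1)) x) =
          1 / 4 * (u x * (f (‖x‖ ^ 2) * (Hf (mj m 0) x ^ 2) ^ i * Hf (mj m (j + 2)) x)) +
            1 / 2 * (u x * ((f (‖x‖ ^ 2) * (‖x‖ ^ 2) ^ (mj m 0)) *
              (Hf (mj m 0) x ^ 2) ^ i * Hf (mj m (j + 1)) x)) +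
            1 / 4 * (u x * ((f (‖x‖ ^ 2) * ((‖x‖ ^ 2) ^ (mj m 0)) ^ 2) *
              (Hf (mj m 0) x ^ 2) ^ i * Hf (mj m j) x))
        rw [pow_succ (Hf (mj m 0) x ^ 2) i]
        linear_combination (u x * f (‖x‖ ^ 2) * (Hf (mj m 0) x ^ 2) ^ i) * h1
      rw [e]
      exact zero_comb3 _ _ _ (int_mul u hD (hc i (j + 2) f hf))
        (int_mul u hD (hc i (j + 1) (fun t => f t * t ^ (mj m 0)) (hf.mul hσ)))
        (int_mul u hD (hc i j (fun t => f t * (t ^ (mj m 0)) ^ 2) (hf.mul (hσ.pow 2)))) a1 a2 a3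

/-- the coordinates of the Stone-Weierstrass theorem -/
def co (m : ℕ) (x : En 2) : Fin 2 → ℝ := ![‖x‖ ^ 2, Hf (mj m 0) x ^ 2]

theorem co_cont (hct : HctStmt) (m : ℕ) : Continuous (co m) := by
  have hH : Continuous (Hf (mj m 0)) := (hct.1 _ (mj_pos m 0)).1
  refine continuous_pi fun i => ?_
  fin_cases i
  · exact continuous_norm.pow 2
  · exact hH.pow 2

theorem claimQ (hct : HctStmt) (hpo : HpoStmt) (hD : Dom (Sec m R))
    (h0 : ∀ b j : ℕ, ∫ x, u x * ((‖x‖ ^ 2) ^ b * Hf (mj m j) x) ∂(mu (Sec m R)) = 0)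
    (q : MvPolynomial (Fin 2) ℝ) :
    ∫ x, u x * (MvPolynomial.eval (co m x) q * Hf (mj m 0) x) ∂(mu (Sec m R)) = 0 := by
  have hH : Continuous (Hf (mj m 0)) := (hct.1 _ (mj_pos m 0)).1
  have hpc : ∀ q : MvPolynomial (Fin 2) ℝ,
      Continuous fun x : En 2 => MvPolynomial.eval (co m x) q * Hf (mj m 0) x := fun q =>
    ((MvPolynomial.continuous_eval q).comp (co_cont hct m)).mul hH
  induction q using MvPolynomial.induction_on' with
  | monomial s a =>
    have h := claimI u hct hpo hD h0 (s 1) 0 (fun t => t ^ (s 0)) (continuous_pow _)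
    have e : (fun x : En 2 => u x * (MvPolynomial.eval (co m x) (MvPolynomial.monomial s a) *
        Hf (mj m 0) x)) =
        fun x => a * (u x * ((‖x‖ ^ 2) ^ (s 0) * (Hf (mj m 0) x ^ 2) ^ (s 1) *
          Hf (mj m 0) x)) := by
      funext x
      rw [MvPolynomial.eval_monomial, Finsupp.prod_fintype _ _ (fun i => pow_zero _),
        Fin.prod_univ_two]
      have c0 : co m x 0 = ‖x‖ ^ 2 := rfl
      have c1 : co m x 1 = Hf (mj m 0) x ^ 2 := rfl
      rw [c0, c1]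
      ring
    rw [e, integral_const_mul, h, mul_zero]
  | add p q hp hq =>
    have e : (fun x : En 2 => u x * (MvPolynomial.eval (co m x) (p + q) * Hf (mj m 0) x)) =
        fun x => u x * (MvPolynomial.eval (co m x) p * Hf (mj m 0) x) +
          u x * (MvPolynomial.eval (co m x) q * Hf (mj m 0) x) := by
      funext x
      rw [map_add]
      ring
    rw [e, integral_add (int_mul u hD (hpc p)) (int_mul u hD (hpc q)), hp, hq, add_zero]

end main

/-! ### The half sector -/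

/-- the closed half sector -/
def Kp (m : ℕ) (R : ℝ) : Set (En 2) := {x | ‖x‖ ≤ R ∧ ‖x‖ * Real.cos (al m) ≤ x 0 ∧ 0 ≤ x 1}

theorem coord_cont (i : Fin 2) : Continuous fun x : En 2 => x i := by fun_prop

theorem Kp_compact (m : ℕ) (R : ℝ) : IsCompact (Kp m R) := by
  apply Metric.isCompact_of_isClosed_isBounded
  · refine (isClosed_le continuous_norm continuous_const).inter
      ((isClosed_le (continuous_norm.mul continuous_const) (coord_cont 0)).inter
        (isClosed_le continuous_const (coord_cont 1)))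
  · refine Metric.isBounded_closedBall.subset (s := Kp m R) (t := Metric.closedBall (0 : En 2) R)
      fun x hx => ?_
    rw [mem_closedBall_zero_iff]
    exact hx.1

theorem norm_sq_eq (x : En 2) : ‖x‖ ^ 2 = x 0 ^ 2 + x 1 ^ 2 := by
  rw [EuclideanSpace.norm_eq, Real.sq_sqrt (by positivity), Fin.sum_univ_two]
  simp

theorem abs_coord_le (x : En 2) : |x 0| ≤ ‖x‖ := by
  apply abs_le_of_sq_le_sq _ (norm_nonneg _)
  rw [norm_sq_eq]
  nlinarith [sq_nonneg (x 1)]

/-- the angle of a point of the closed half sector -/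
theorem Kp_angle {m : ℕ} {R : ℝ} {x : En 2} (hx : x ∈ Kp m R) (hr : 0 < ‖x‖) :
    0 ≤ mj m 0 * Real.arccos (x 0 / ‖x‖) ∧ mj m 0 * Real.arccos (x 0 / ‖x‖) ≤ Real.pi / 2 := by
  have hm := mj_pos m 0
  refine ⟨mul_nonneg hm.le (Real.arccos_nonneg _), ?_⟩
  have hal0 : 0 ≤ al m := by
    unfold al
    positivity
  have hal1 : al m ≤ Real.pi := by
    unfold al
    apply div_le_self Real.pi_pos.le
    have : (0 : ℝ) ≤ m := Nat.cast_nonneg m
    linarith
  have h1 : Real.cos (al m) ≤ x 0 / ‖x‖ := by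
    rw [le_div_iff₀ hr, mul_comm]
    exact hx.2.1
  have h2 : Real.arccos (x 0 / ‖x‖) ≤ al m := by
    have := Real.arccos_le_arccos h1
    rwa [Real.arccos_cos hal0 hal1] at this
  have h3 : mj m 0 * al m = Real.pi / 2 := by
    unfold mj al
    have : (0 : ℝ) ≤ m := Nat.cast_nonneg m
    push_cast
    field_simp
    ring
  rw [← h3]
  exact mul_le_mul_of_nonneg_left h2 hm.le

theorem co_inj {m : ℕ} {R : ℝ} {x y : En 2} (hx : x ∈ Kp m R) (hy : y ∈ Kp m R)
    (h : co m x = co m y) : x = y := by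
  have c0 : ‖x‖ ^ 2 = ‖y‖ ^ 2 := congrFun h 0
  have c1 : Hf (mj m 0) x ^ 2 = Hf (mj m 0) y ^ 2 := congrFun h 1
  have hn : ‖x‖ = ‖y‖ := by
    rwa [sq_eq_sq₀ (norm_nonneg _) (norm_nonneg _)] at c0
  rcases (norm_nonneg x).eq_or_lt with hr | hr
  · have h1 : x = 0 := norm_eq_zero.1 hr.symm
    have h2 : y = 0 := norm_eq_zero.1 (by rw [← hn]; exact hr.symm)
    rw [h1, h2]
  · have hr' : 0 < ‖y‖ := by rw [← hn]; exact hr
    obtain ⟨a1, a2⟩ := Kp_angle hx hr
    obtain ⟨b1, b2⟩ := Kp_angle hy hr'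
    have hm := mj_pos m 0
    have hπ := Real.pi_pos
    have p1 : 0 ≤ Real.cos (mj m 0 * Real.arccos (x 0 / ‖x‖)) :=
      Real.cos_nonneg_of_mem_Icc ⟨by linarith, a2⟩
    have p2 : 0 ≤ Real.cos (mj m 0 * Real.arccos (y 0 / ‖y‖)) :=
      Real.cos_nonneg_of_mem_Icc ⟨by linarith, b2⟩
    have hs : 0 < ‖x‖ ^ (mj m 0) := Real.rpow_pos_of_pos hr _
    have n1 : 0 ≤ Hf (mj m 0) x := mul_nonneg hs.le p1
    have n2 : 0 ≤ Hf (mj m 0) y := mul_nonneg (Real.rpow_pos_of_pos hr' _).le p2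
    have e1 : Hf (mj m 0) x = Hf (mj m 0) y := by
      rwa [sq_eq_sq₀ n1 n2] at c1
    unfold Hf at e1
    rw [← hn] at e1
    have e2 := mul_left_cancel₀ hs.ne' e1
    rw [hn] at e2
    rw [← hn] at e2
    have e3 := Real.injOn_cos ⟨a1, by linarith⟩ ⟨by rw [← hn] at b1; exact b1,
      by rw [← hn] at b2; linarith⟩ e2
    have e4 := mul_left_cancel₀ hm.ne' e3
    have q1 := abs_le.1 (abs_coord_le x)
    have q2 := abs_le.1 (abs_coord_le y)
    rw [← hn] at q2
    have e5 : x 0 / ‖x‖ = y 0 / ‖x‖ := by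
      rw [← Real.cos_arccos (x := x 0 / ‖x‖) (by rw [le_div_iff₀ hr]; linarith)
        (by rw [div_le_iff₀ hr]; linarith), e4,
        Real.cos_arccos (x := y 0 / ‖x‖) (by rw [le_div_iff₀ hr]; linarith)
        (by rw [div_le_iff₀ hr]; linarith)]
    have e6 : x 0 = y 0 := by
      field_simp at e5
      exact e5
    have e7 : x 1 ^ 2 = y 1 ^ 2 := by
      have n1 := norm_sq_eq x
      have n2 := norm_sq_eq y
      rw [hn, e6] at n1
      linarith
    have e8 : x 1 = y 1 := by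
      rwa [sq_eq_sq₀ hx.2.2 hy.2.2] at e7
    ext i
    fin_cases i
    · exact e6
    · exact e8

/-- approximation on the closed half sector by polynomials in the coordinates -/
theorem approx (hct : HctStmt) (m : ℕ) (R : ℝ) (G : En 2 → ℝ) (hG : Continuous G) (ε : ℝ)
    (hε : 0 < ε) : ∃ q : MvPolynomial (Fin 2) ℝ, ∀ x ∈ Kp m R,
      |MvPolynomial.eval (co m x) q - G x| < ε := by
  haveI : CompactSpace (Kp m R) := isCompact_iff_compactSpace.1 (Kp_compact m R)
  have hco := co_cont hct m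
  let f : Fin 2 → C(Kp m R, ℝ) := fun i =>
    ⟨fun x => co m x.1 i, (continuous_apply i).comp (hco.comp continuous_subtype_val)⟩
  let A : Subalgebra ℝ C(Kp m R, ℝ) := (MvPolynomial.aeval f).range
  have hA : A.SeparatesPoints := by
    intro x y hxy
    by_contra hcon
    push Not at hcon
    apply hxy
    apply Subtype.ext
    apply co_inj x.2 y.2
    funext i
    have h1 : f i ∈ A := ⟨MvPolynomial.X i, MvPolynomial.aeval_X f i⟩
    exact hcon _ ⟨f i, h1, rfl⟩
  obtain ⟨g, hg⟩ := ContinuousMap.exists_mem_subalgebra_near_continuous_of_separatesPoints A hA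
    (fun x => G x.1) (hG.comp continuous_subtype_val) ε hε
  obtain ⟨q, hq⟩ := g.2
  refine ⟨q, fun x hx => ?_⟩
  have h1 := hg ⟨x, hx⟩
  have h2 : (g : C(Kp m R, ℝ)) ⟨x, hx⟩ = MvPolynomial.eval (co m x) q := by
    rw [← hq]
    have h3 := MvPolynomial.comp_aeval_apply (R := ℝ) f
      (ContinuousMap.evalAlgHom ℝ ℝ (⟨x, hx⟩ : Kp m R)) q
    exact h3
  rw [Real.norm_eq_abs, h2] at h1
  exact h1

/-- the integrals against all continuous functions -/
theorem claimG (hct : HctStmt) (hpo : HpoStmt) {m : ℕ} {R : ℝ} (u : Lp ℝ 2 (mu (Sec m R)))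
    (hD : Dom (Sec m R)) (hsg : ∀ x, sg x ∈ Sec m R ↔ x ∈ Sec m R) (hu : Sy u)
    (h0 : ∀ b j : ℕ, ∫ x, u x * ((‖x‖ ^ 2) ^ b * Hf (mj m j) x) ∂(mu (Sec m R)) = 0)
    (g : En 2 → ℝ) (hg : Continuous g) :
    ∫ x, u x * (g x * Hf (mj m 0) x) ∂(mu (Sec m R)) = 0 := by
  have hH : Continuous (Hf (mj m 0)) := (hct.1 _ (mj_pos m 0)).1
  have hn := hct.2.1
  have hHs := hct.2.2 (mj m 0)
  have hsc := sg_cont hn
  have hGc : Continuous fun x => g x + g (sg x) := hg.add (hg.comp hsc)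
  -- symmetric functions
  have k1 : ∫ x, u x * ((g x + g (sg x)) * Hf (mj m 0) x) ∂(mu (Sec m R)) = 0 := by
    apply close u hD (hGc.mul hH)
    intro ε hε
    obtain ⟨C, hC⟩ := (isCompact_closedBall (0 : En 2) R).exists_bound_of_continuousOn
      hH.continuousOn
    have hC1 : 0 < |C| + 1 := by positivity
    obtain ⟨q, hq⟩ := approx hct m R (fun x => g x + g (sg x)) hGc (ε / (|C| + 1))
      (by positivity)
    refine ⟨fun x => MvPolynomial.eval (co m x) q * Hf (mj m 0) x,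
      ((MvPolynomial.continuous_eval q).comp (co_cont hct m)).mul hH,
      claimQ u hct hpo hD h0 q, fun x hx => ?_⟩
    have hx1 := mem_ball_of_mem hx
    have hclose : |MvPolynomial.eval (co m x) q - (g x + g (sg x))| ≤ ε / (|C| + 1) := by
      rcases le_total 0 (x 1) with h1 | h1
      · exact (hq x ⟨hx.1.le, hx.2.le, h1⟩).le
      · have h2 : sg x ∈ Kp m R := by
          have h3 := (hsg x).2 hx
          refine ⟨h3.1.le, h3.2.le, ?_⟩
          have h4 : (sg x) 1 = - x 1 := by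
            unfold sg
            simp
          rw [h4]
          linarith
        have h5 := (hq (sg x) h2).le
        have h6 : co m (sg x) = co m x := by
          unfold co
          rw [hn, hHs]
        have h7 : g (sg x) + g (sg (sg x)) = g x + g (sg x) := by
          rw [sg_sg]
          ring
        show |MvPolynomial.eval (co m x) q - (g x + g (sg x))| ≤ ε / (|C| + 1)
        rw [← h6, ← h7]
        exact h5
    have e : (g x + g (sg x)) * Hf (mj m 0) x - MvPolynomial.eval (co m x) q * Hf (mj m 0) x =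
        -((MvPolynomial.eval (co m x) q - (g x + g (sg x))) * Hf (mj m 0) x) := by ring
    show |(g x + g (sg x)) * Hf (mj m 0) x -
      MvPolynomial.eval (co m x) q * Hf (mj m 0) x| ≤ ε
    rw [e, abs_neg, abs_mul]
    have h2 : |Hf (mj m 0) x| ≤ |C| + 1 := by
      have := hC x hx1
      rw [Real.norm_eq_abs] at this
      exact this.trans ((le_abs_self C).trans (by linarith))
    calc |MvPolynomial.eval (co m x) q - (g x + g (sg x))| * |Hf (mj m 0) x| ≤
          ε / (|C| + 1) * (|C| + 1) :=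
          mul_le_mul hclose h2 (abs_nonneg _) (by positivity)
      _ = ε := by field_simp
  -- the two halves are equal
  have k2 : ∫ x, u x * (g (sg x) * Hf (mj m 0) x) ∂(mu (Sec m R)) =
      ∫ x, u x * (g x * Hf (mj m 0) x) ∂(mu (Sec m R)) := by
    rw [← sg_mp hn hD.1 hsg (fun x => u x * (g x * Hf (mj m 0) x))]
    apply integral_congr_ae
    filter_upwards [hu] with x hx
    show u x * (g (sg x) * Hf (mj m 0) x) = u (sg x) * (g (sg x) * Hf (mj m 0) (sg x))
    rw [hHs, hx]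
  have e : (fun x => u x * ((g x + g (sg x)) * Hf (mj m 0) x)) =
      fun x => u x * (g x * Hf (mj m 0) x) + u x * (g (sg x) * Hf (mj m 0) x) := by
    funext x
    ring
  have i1 : Integrable (fun x => u x * (g x * Hf (mj m 0) x)) (mu (Sec m R)) :=
    int_mul u hD (hg.mul hH)
  have i2 : Integrable (fun x => u x * (g (sg x) * Hf (mj m 0) x)) (mu (Sec m R)) :=
    int_mul u hD ((hg.comp hsc).mul hH)
  rw [e, integral_add i1 i2, k2] at k1
  linarith

theorem dns (hct : HctStmt) (hpo : HpoStmt) (sdo : SdoStmt) : DnsStmt := by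
  intro m R u hR hu h0
  obtain ⟨hD, -, hsg⟩ := sdo m R hR
  have hH : Continuous (Hf (mj m 0)) := (hct.1 _ (mj_pos m 0)).1
  have h1 : ∀ᵐ x ∂(mu (Sec m R)), u x * Hf (mj m 0) x = 0 := by
    apply ae_eq_zero_of_integral_contDiff_smul_eq_zero
    · exact (int_mul u hD hH).locallyIntegrable
    · intro g hg _
      have h2 := claimG hct hpo u hD hsg hu h0 g hg.continuous
      have e : (fun x => g x • (u x * Hf (mj m 0) x)) =
          fun x => u x * (g x * Hf (mj m 0) x) := by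
        funext x
        rw [smul_eq_mul]
        ring
      rw [e]
      exact h2
  rw [Lp.eq_zero_iff_ae_eq_zero]
  have h2 : ∀ᵐ x ∂(mu (Sec m R)), x ∈ Sec m R := ae_restrict_mem hD.1.measurableSet
  filter_upwards [h1, h2] with x hx hxm
  rcases mul_eq_zero.1 hx with h | h
  · exact h
  · exact absurd h ((hpo m).1 R x hxm).1.ne'

end

end Pool.Agent.BES.H69
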